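import Pool.Agent.Q199.BB.Main

/-!
# MP_fc7b8c_co: the density threshold for infinite sumsets `B + B` is not sharp in `F_7^ω`

Full negative answer to Q1.  In the infinite countable group `G = F_7^ω` (here `[G : 2G] = 1` and
`|ker D| = 1`) every set `A` with upper density larger than `1 - (2/3) α_Φ` along a Folner
sequence `Φ` contains `B + B` for some infinite `B`.  In particular this holds for the sets of
upper density `1 - α_Φ / (ℓ + r) = 1 - α_Φ / 2` if `α_Φ > 0`.  The constant `2/3` is optimal.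
-/

namespace Pool.Agent.Results.MP_fc7b8c_co.NotSharpInF7

open Filter Topology Pool.Agent.Q199.BB

open Classical in
/-- Folner sequence: `|Φ_N ∩ (g + Φ_N)| / |Φ_N| → 1` for every `g`. -/
def Folner {K : Type*} [AddCommGroup K] (Φ : ℕ → Finset K) : Prop :=
  ∀ g : K, Tendsto (fun N => (((Φ N).filter (fun x => x - g ∈ Φ N)).card : ℝ) / (Φ N).card)
    atTop (𝓝 1)

open Classical in
/-- Upper density `limsup |A ∩ Φ_N| / |Φ_N|`. -/
noncomputable def upperDensity {K : Type*} (Φ : ℕ → Finset K) (A : Set K) : ℝ :=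
  limsup (fun N => (((Φ N).filter (fun x => x ∈ A)).card : ℝ) / (Φ N).card) atTop

open Classical in
/-- Doubling ratio `α_Φ = liminf |Φ_N / 2 ∩ Φ_N| / |Φ_N|`. -/
noncomputable def doublingRatio {K : Type*} [AddCommGroup K] (Φ : ℕ → Finset K) : ℝ :=
  liminf (fun N => (((Φ N).filter (fun x => 2 • x ∈ Φ N)).card : ℝ) / (Φ N).card) atTop

/-- `B + B ⊆ A` for some infinite `B` (with `b + b` included). -/
def ContainsBB {K : Type*} [AddCommGroup K] (A : Set K) : Prop :=
  ∃ B : Set K, B.Infinite ∧ ∀ x ∈ B, ∀ y ∈ B, x + y ∈ A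

/-- `ℓ = [K : 2K]`. -/
noncomputable def ell (K : Type) [AddCommGroup K] : ℕ := (nsmulAddMonoidHom 2 : K →+ K).range.index

/-- `r = |ker D|`. -/
noncomputable def rr (K : Type) [AddCommGroup K] : ℕ := Nat.card (nsmulAddMonoidHom 2 : K →+ K).ker

/-- Q1 for the group `K`: there are a Folner sequence `Φ` with `α_Φ > 0` and a set `A` of upper
density `1 - α_Φ / (ℓ + r)` that contains `B + B` for no infinite `B`. -/
def SharpIn (K : Type) [AddCommGroup K] : Prop :=
  ∃ Φ : ℕ → Finset K, Folner Φ ∧ 0 < doublingRatio Φ ∧ ∃ A : Set K,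
    upperDensity Φ A = 1 - doublingRatio Φ / (ell K + rr K) ∧ ¬ ContainsBB A

/-- Negative answer to Q1, with the exact threshold for the windows of `F_7^ω`. -/
theorem result :
    -- the group: countable, infinite, `ℓ = r = 1`
    (Countable (ℕ →₀ ZMod 7) ∧ Infinite (ℕ →₀ ZMod 7) ∧ ell (ℕ →₀ ZMod 7) = 1 ∧
      rr (ℕ →₀ ZMod 7) = 1) ∧
    -- Q1 fails for it
    ¬ SharpIn (ℕ →₀ ZMod 7) ∧
    -- the stronger theorem, for all Folner sequences
    (∀ Φ : ℕ → Finset (ℕ →₀ ZMod 7), Folner Φ → ∀ A : Set (ℕ →₀ ZMod 7),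
      1 - 2 / 3 * doublingRatio Φ < upperDensity Φ A → ContainsBB A) ∧
    -- the constant `2/3` is optimal
    (∃ Φ : ℕ → Finset (ℕ →₀ ZMod 7), Folner Φ ∧ doublingRatio Φ = 1 ∧
      ∃ A : Set (ℕ →₀ ZMod 7), upperDensity Φ A = 1 - 2 / 3 * doublingRatio Φ ∧
        ¬ ContainsBB A) := by
  have hmain : ∀ Φ : ℕ → Finset (ℕ →₀ ZMod 7), Folner Φ → ∀ A : Set (ℕ →₀ ZMod 7),
      1 - 2 / 3 * doublingRatio Φ < upperDensity Φ A → ContainsBB A := by
    intro Φ hΦ A hA
    by_contra hcon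
    have h1 : udens Φ A ≤ 1 - 2 / 3 * dratio Φ := bound A hcon Φ hΦ
    have h2 : 1 - 2 / 3 * dratio Φ < udens Φ A := hA
    linarith
  have hell : ell (ℕ →₀ ZMod 7) = 1 := index_two
  have hrr : rr (ℕ →₀ ZMod 7) = 1 := card_ker_two
  refine ⟨⟨inferInstance, inf_G, hell, hrr⟩, ?_, hmain, ?_⟩
  · rintro ⟨Φ, hΦ, hα, A, hA, hno⟩
    refine hno (hmain Φ hΦ A ?_)
    rw [hA, hell, hrr]
    push_cast
    linarith
  · refine ⟨win, folner_win, dratio_win, lastSet, ?_, lastSet_noBB⟩
    have h1 : udens win lastSet ≤ 1 - 2 / 3 * dratio win :=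
      bound lastSet lastSet_noBB win folner_win
    have h2 : 1 / 3 ≤ udens win lastSet := udens_last
    have h3 : dratio win = 1 := dratio_win
    have h4 : udens win lastSet = 1 - 2 / 3 * dratio win := by
      rw [h3] at h1 ⊢
      linarith
    exact h4

end Pool.Agent.Results.MP_fc7b8c_co.NotSharpInF7
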